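import Mathlib
import Pool.Agent.Lib.MP_0d366e_co.Twice

namespace Pool.Agent.Results.MP_0d366e_co.AllButFinite

open Pool.Agent.Lib.MP_0d366e_co in
theorem result : ∃ n0 : ℕ, ∀ (V : Type) [Fintype V] (G : SimpleGraph V), G.Connected →
    (¬ ∃ a b c d : V, a ≠ c ∧ b ≠ d ∧ G.Adj a b ∧ G.Adj b c ∧ G.Adj c d ∧ G.Adj d a) →
    ∀ r : ℕ, G.radius = r →
    ∀ l : V → ℕ, (∀ v, l v = (G.induce (G.neighborSet v)).indepNum) →
    ∀ L : ℕ, L = ⌊(∑ v, (l v : ℝ)) / Fintype.card V⌋₊ → n0 ≤ Fintype.card V →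
    Nonempty (SimpleGraph.pathGraph (r + L) ↪g G) := by
  obtain ⟨n0, h0⟩ := allbut
  refine ⟨n0, fun V _ G hG hC4 r hr l hl L hL hn => ?_⟩
  have hc : C4F G := by
    intro a b c d h1 h2 h3 h4
    by_contra hcon
    push Not at hcon
    exact hC4 ⟨a, b, c, d, hcon.1, hcon.2, h1, h2, h3, h4⟩
  have hr' : G.radius.toNat = r := by rw [hr]; rfl
  have : Nonempty V := hG.nonempty
  have hsum : L * Fintype.card V ≤ ∑ v, la G Finset.univ v := by
    rw [hL]
    exact (floor_le l).trans (Finset.sum_le_sum fun v _ => hl v ▸ indepNum_le_la v)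
  obtain ⟨f, hf⟩ := h0 V G hG hc L hsum hn
  exact hf.emb (by omega)

end Pool.Agent.Results.MP_0d366e_co.AllButFinite
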