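import Mathlib
import Pool.Agent.Lib.MP_0d366e_co.Final

namespace Pool.Agent.Results.MP_0d366e_co.MinimumForm

open Pool.Agent.Lib.MP_0d366e_co in
theorem result (V : Type) [Fintype V] (G : SimpleGraph V) (hG : G.Connected)
    (hC4 : ¬ ∃ a b c d : V, a ≠ c ∧ b ≠ d ∧ G.Adj a b ∧ G.Adj b c ∧ G.Adj c d ∧ G.Adj d a)
    (r : ℕ) (hr : G.radius = r)
    (δ : ℕ) (hδ : ∀ v, δ ≤ (G.induce (G.neighborSet v)).indepNum) :
    Nonempty (SimpleGraph.pathGraph (r + δ) ↪g G) := by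
  have hc : C4F G := by
    intro a b c d h1 h2 h3 h4
    by_contra hcon
    push Not at hcon
    exact hC4 ⟨a, b, c, d, hcon.1, hcon.2, h1, h2, h3, h4⟩
  have hr' : G.radius.toNat = r := by rw [hr]; rfl
  obtain ⟨f, hf⟩ := minl' hG hc (δ := δ) fun v => by
    obtain ⟨I, hI, he⟩ := exists_NI (G := G) v
    exact ⟨I, hI, by rw [he]; exact hδ v⟩
  exact hf.emb (by omega)

end Pool.Agent.Results.MP_0d366e_co.MinimumForm
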